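import Pool.Agent.H.MP_577ba1_lc.A

namespace Pool.Agent.Results.MP_577ba1_lc.Counter

open Pool.Agent.H.MP_577ba1_lc

theorem result : ∃ le : List Bool → List Bool → Prop,
    (∀ x, le x x) ∧ (∀ x y z, le x y → le y z → le x z) ∧
    (∀ x y u v, le x y → le (u ++ x ++ v) (u ++ y ++ v)) ∧
    (∀ x y, le x y → x.length ≤ y.length) ∧
    (∀ x : ℕ → List Bool, ∃ i j, i < j ∧ le (x i) (x j)) ∧
    ∀ P : Finset (List Bool × List Bool), (∀ r ∈ P, r.1 ≠ [] ∧ r.2 ≠ [] ∧ le r.1 r.2) →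
      ¬ ∀ x : ℕ → List Bool, ∃ i j, i < j ∧ Relation.ReflTransGen
        (fun a b => ∃ r ∈ P, ∃ s t, a = s ++ r.1 ++ t ∧ b = s ++ r.2 ++ t) (x i) (x j) := by
  refine ⟨le, le_refl', fun _ _ _ => le_trans', fun _ _ u v h => le_mul h u v, fun _ _ => le_len,
    le_wqo, fun P hP h => ?_⟩
  obtain ⟨x, hx⟩ := bad P (fun r hr => (hP r hr).2.2)
  obtain ⟨i, j, hij, h'⟩ := h x
  exact hx i j hij h'

end Pool.Agent.Results.MP_577ba1_lc.Counter
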